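import Pool.Agent.H87.QP.Targets
import Pool.Agent.H20.ENM.QMS

/-!
# QLB: the sum of the reciprocals of the primes of a level is not small
-/

set_option autoImplicit false

namespace Pool.Agent.H57.QP

open Pool.Agent.H87.QP

theorem pf_QLB (_hP : Pool.Agent.H93.DE.T_PIL) : T_QLB := by
  obtain ⟨m₀, h⟩ := Pool.Agent.H20.ENM.pf_QMS
  exact ⟨1 / 4, m₀, by norm_num, fun w hw => (h w hw).1⟩

end Pool.Agent.H57.QP
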